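import Pool.Agent.H32.S36.Targets

/-!
MP_e90fb2_nt, module EUL: expansion of the Euler product.
-/

set_option autoImplicit false

open Complex Function Filter Topology

namespace Pool.Agent.H32.S36

theorem EUL_norm_qq (τ : ℂ) (hτ : 0 < τ.im) : ‖qq τ‖ < 1 := by
  unfold qq
  rw [Complex.norm_exp]
  have : (2 * Real.pi * Complex.I * τ).re = -(2 * Real.pi * τ.im) := by
    simp [Complex.mul_re]
  rw [this, Real.exp_lt_one_iff]
  have := Real.pi_pos
  nlinarith [mul_pos this hτ]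

theorem EUL_pent_ge (k : ℤ) : k.natAbs ≤ pentagonal k := by
  have h := two_mul_natCast_pentagonal k
  have h2 : (k.natAbs : ℤ) ≤ (pentagonal k : ℤ) := by
    rcases le_or_gt k 0 with h0 | h0
    · have e : (k.natAbs : ℤ) = -k := by omega
      rw [e]
      nlinarith
    · have e : (k.natAbs : ℤ) = k := by omega
      rw [e]
      nlinarith
  exact_mod_cast h2

/-- uniform bound for the products -/
theorem EUL_prod_bound (q : ℂ) (hq : ‖q‖ < 1) (k n : ℕ) :
    ‖∏ i ∈ Finset.range n, (1 - q ^ (k + i + 1))‖ ≤ Real.exp (1 / (1 - ‖q‖)) := by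
  have hq0 : 0 ≤ ‖q‖ := norm_nonneg q
  have h1 : 0 < 1 - ‖q‖ := by linarith
  rw [norm_prod]
  calc ∏ i ∈ Finset.range n, ‖1 - q ^ (k + i + 1)‖
      ≤ ∏ i ∈ Finset.range n, Real.exp (‖q‖ ^ i) := by
        refine Finset.prod_le_prod (fun i _ => norm_nonneg _) fun i _ => ?_
        calc ‖1 - q ^ (k + i + 1)‖ ≤ ‖(1 : ℂ)‖ + ‖q ^ (k + i + 1)‖ := norm_sub_le _ _
          _ = 1 + ‖q‖ ^ (k + i + 1) := by rw [norm_one, norm_pow]
          _ ≤ 1 + ‖q‖ ^ i := by
              have := pow_le_pow_of_le_one hq0 hq.le (show i ≤ k + i + 1 by omega)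
              linarith
          _ ≤ Real.exp (‖q‖ ^ i) := by
              have := Real.add_one_le_exp (‖q‖ ^ i)
              linarith
    _ = Real.exp (∑ i ∈ Finset.range n, ‖q‖ ^ i) := by rw [Real.exp_sum]
    _ ≤ Real.exp (1 / (1 - ‖q‖)) := by
        refine Real.exp_le_exp.2 ?_
        have h2 := (summable_geometric_of_lt_one hq0 hq).sum_le_tsum (Finset.range n)
          (fun i _ => pow_nonneg hq0 i)
        rw [tsum_geometric_of_lt_one hq0 hq] at h2
        rw [one_div]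
        exact h2

theorem EUL_term_bound (q : ℂ) (hq : ‖q‖ < 1) (k n : ℕ) :
    ‖q ^ ((k + 1) * n) * ∏ i ∈ Finset.range (n + 1), (1 - q ^ (k + i + 1))‖ ≤
      Real.exp (1 / (1 - ‖q‖)) * ‖q‖ ^ n := by
  rw [norm_mul, norm_pow, mul_comm]
  have hq0 : 0 ≤ ‖q‖ := norm_nonneg q
  have h2 : ‖q‖ ^ ((k + 1) * n) ≤ ‖q‖ ^ n := by
    apply pow_le_pow_of_le_one hq0 hq.le
    nlinarith
  exact mul_le_mul (EUL_prod_bound q hq k (n + 1)) h2 (pow_nonneg hq0 _) (Real.exp_pos _).le

theorem EUL_summable (q : ℂ) (hq : ‖q‖ < 1) (k : ℕ) : Summable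
    (fun n ↦ q ^ ((k + 1) * n) * ∏ i ∈ Finset.range (n + 1), (1 - q ^ (k + i + 1))) :=
  Summable.of_norm_bounded
    ((summable_geometric_of_lt_one (norm_nonneg q) hq).mul_left (Real.exp (1 / (1 - ‖q‖))))
    (fun n => EUL_term_bound q hq k n)

theorem EUL_tsum_bound (q : ℂ) (hq : ‖q‖ < 1) (k : ℕ) :
    ‖∑' n, q ^ ((k + 1) * n) * ∏ i ∈ Finset.range (n + 1), (1 - q ^ (k + i + 1))‖ ≤
      Real.exp (1 / (1 - ‖q‖)) * (1 - ‖q‖)⁻¹ :=
  tsum_of_norm_bounded ((hasSum_geometric_of_lt_one (norm_nonneg q) hq).mul_left _)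
    (fun n => EUL_term_bound q hq k n)

theorem EUL_summableZ (q : ℂ) (hq : ‖q‖ < 1) :
    Summable (fun k : ℤ => ((Int.negOnePow k : ℤˣ) : ℤ) * q ^ pentagonal k : ℤ → ℂ) := by
  have hq0 : 0 ≤ ‖q‖ := norm_nonneg q
  have hs : Summable (fun k : ℤ => ‖q‖ ^ k.natAbs) := by
    refine Summable.of_nat_of_neg ?_ ?_
    · simpa using summable_geometric_of_lt_one hq0 hq
    · simpa using summable_geometric_of_lt_one hq0 hq
  refine Summable.of_norm_bounded hs fun k => ?_
  rw [norm_mul, norm_pow]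
  have h1 : ‖(((Int.negOnePow k : ℤˣ) : ℤ) : ℂ)‖ = 1 := by
    rcases Int.units_eq_one_or (Int.negOnePow k) with h | h <;> simp [h]
  rw [h1, one_mul]
  exact pow_le_pow_of_le_one hq0 hq.le (EUL_pent_ge k)

theorem EUL_hasSum (q : ℂ) (hq : ‖q‖ < 1) :
    HasSum (fun k : ℤ => ((Int.negOnePow k : ℤˣ) : ℤ) * q ^ pentagonal k : ℤ → ℂ)
      (∏' n : ℕ, (1 - q ^ (n + 1))) := by
  have hq0 : 0 ≤ ‖q‖ := norm_nonneg q
  have hZ := (EUL_summableZ q hq).hasSum
  set S := ∑' k : ℤ, (((Int.negOnePow k : ℤˣ) : ℤ) * q ^ pentagonal k : ℂ) with hS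
  have h := hZ
  rw [← neg_injective.hasSum_iff (fun x hx ↦ by absurd hx; use -x; simp)] at h
  have hN : HasSum (fun k : ℕ ↦ (-1) ^ k * (q ^ pentagonal (-k) - q ^ pentagonal (k + 1))) S := by
    convert h.nat_add_neg_add_one using 2 with k
    simp_rw [Function.comp_apply, neg_neg, Int.negOnePow_add]
    simp
    ring
  have hprod := Pentagonal.tprod_one_sub_pow (x := q) ?_ ?_ ?_ ?_ ?_
  · rw [hprod, hN.tsum_eq]
    exact hZ
  · exact tendsto_pow_atTop_nhds_zero_of_norm_lt_one hq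
  · exact EUL_summable q hq
  · intro k
    apply multipliable_one_add_of_summable (f := fun n : ℕ ↦ -q ^ (n + k + 1))
    simpa [add_assoc] using
      (summable_nat_add_iff (k + 1)).mpr (summable_geometric_of_lt_one (norm_nonneg _) hq)
  · exact hN.summable
  · rw [tendsto_zero_iff_norm_tendsto_zero]
    have hlim : Tendsto (fun k : ℕ => ‖q‖ ^ k * (Real.exp (1 / (1 - ‖q‖)) * (1 - ‖q‖)⁻¹)) atTop
        (𝓝 0) := by
      simpa using (tendsto_pow_atTop_nhds_zero_of_lt_one hq0 hq).mul_const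
        (Real.exp (1 / (1 - ‖q‖)) * (1 - ‖q‖)⁻¹)
    refine squeeze_zero (fun k => norm_nonneg _) (fun k => ?_) hlim
    rw [norm_mul, norm_mul, norm_pow, norm_neg, norm_one, one_pow, one_mul, norm_pow]
    refine mul_le_mul ?_ (EUL_tsum_bound q hq k) (norm_nonneg _) (pow_nonneg hq0 _)
    apply pow_le_pow_of_le_one hq0 hq.le
    rw [Nat.le_div_iff_mul_le (by norm_num)]
    nlinarith

theorem m_EUL : T_EUL := by
  intro τ hτ
  have hq := EUL_norm_qq τ hτ
  have h := EUL_hasSum (qq τ) hq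
  -- natural numbers
  have h2 : HasSum (fun n : ℕ => (((PowerSeries.pentagonalSeries ℤ).coeff n : ℤ) : ℂ) * qq τ ^ n)
      (ee τ) := by
    have e0 : ee τ = ∏' n : ℕ, (1 - qq τ ^ (n + 1)) := rfl
    rw [e0, ← pentagonal_injective.hasSum_iff]
    · convert h using 2 with k
      simp
    · intro n hn
      rw [PowerSeries.coeff_pentagonalSeries_eq_zero ℤ hn]
      simp
  -- integers
  have hinj : Injective (fun n : ℕ => (n : ℤ)) := Nat.cast_injective
  rw [← hinj.hasSum_iff]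
  · convert h2 using 2 with n
    simp only [comp_apply, zc_coeff, zpow_natCast]
    congr 2
    exact HahnSeries.ofPowerSeries_apply_coeff _ n
  · intro n hn
    rw [zc_coeff, HahnSeries.ofPowerSeries_apply, HahnSeries.embDomain_of_notMem_range]
    · simp
    · rintro ⟨k, hk⟩
      exact hn ⟨k, by simpa using hk⟩

end Pool.Agent.H32.S36
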