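import Pool.Agent.H32.S36.Targets

/-!
MP_e90fb2_nt, module FVL: Laurent expansions of `fv`, `1/fv`, `fD`.
-/

set_option autoImplicit false

open Complex Function

namespace Pool.Agent.H32.S36

/-- leading coefficient of a product -/
theorem FVL_mul {f g : LaurentSeries ℤ} {a b : ℤ} (hf : ∀ n : ℤ, n < a → f.coeff n = 0)
    (hg : ∀ n : ℤ, n < b → g.coeff n = 0) :
    (∀ n : ℤ, n < a + b → (f * g).coeff n = 0) ∧ (f * g).coeff (a + b) = f.coeff a * g.coeff b := by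
  constructor
  · intro n hn
    rw [HahnSeries.coeff_mul]
    refine Finset.sum_eq_zero fun ij hij => ?_
    simp only [Finset.mem_antidiagonal, HahnSeries.mem_support] at hij
    exfalso
    have h1 : a ≤ ij.1 := by
      by_contra h
      exact hij.1 (hf _ (not_le.1 h))
    have h2 : b ≤ ij.2 := by
      by_contra h
      exact hij.2.1 (hg _ (not_le.1 h))
    have h3 := hij.2.2
    omega
  · rw [HahnSeries.coeff_mul]
    rw [Finset.sum_eq_single (a, b)]
    · intro ij hij hne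
      simp only [Finset.mem_antidiagonal, HahnSeries.mem_support] at hij
      exfalso
      have h1 : a ≤ ij.1 := by
        by_contra h
        exact hij.1 (hf _ (not_le.1 h))
      have h2 : b ≤ ij.2 := by
        by_contra h
        exact hij.2.1 (hg _ (not_le.1 h))
      have h3 := hij.2.2
      apply hne
      ext
      · simp only
        omega
      · simp only
        omega
    · intro h
      simp only [Finset.mem_antidiagonal, HahnSeries.mem_support] at h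
      by_cases h1 : f.coeff a = 0
      · rw [h1, zero_mul]
      · by_cases h2 : g.coeff b = 0
        · rw [h2, mul_zero]
        · exact absurd ⟨h1, h2, trivial⟩ h

/-- the series starts with `q^k` -/
def FVL_L (k : ℤ) (f : LaurentSeries ℤ) : Prop := (∀ n : ℤ, n < k → f.coeff n = 0) ∧ f.coeff k = 1

theorem FVL_L_mul {f g : LaurentSeries ℤ} {a b : ℤ} (hf : FVL_L a f) (hg : FVL_L b g) :
    FVL_L (a + b) (f * g) := by
  obtain ⟨h1, h2⟩ := FVL_mul hf.1 hg.1
  exact ⟨h1, by rw [h2, hf.2, hg.2, one_mul]⟩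

theorem FVL_L_single (k : ℤ) : FVL_L k (HahnSeries.single k (1 : ℤ)) :=
  ⟨fun _ hn => HahnSeries.coeff_single_of_ne hn.ne, HahnSeries.coeff_single_same k 1⟩

theorem FVL_L_sq {f : LaurentSeries ℤ} (hf : FVL_L 0 f) : FVL_L 0 (f ^ 2) := by
  rw [pow_two]
  exact FVL_L_mul hf hf

theorem FVL_pent_zero :
    (HahnSeries.ofPowerSeries ℤ ℤ (PowerSeries.pentagonalSeries ℤ)).coeff 0 = 1 := by
  have h := HahnSeries.ofPowerSeries_apply_coeff (Γ := ℤ) (PowerSeries.pentagonalSeries ℤ) 0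
  have h0 : ((0 : ℕ) : ℤ) = 0 := rfl
  rw [h0] at h
  rw [h]
  have h2 := PowerSeries.coeff_pentagonalSeries_pentagonal ℤ 0
  have h3 : pentagonal 0 = 0 := by simp [pentagonal_def]
  rw [h3] at h2
  rw [h2]
  simp

theorem FVL_pent_neg (n : ℤ) (hn : n < 0) :
    (HahnSeries.ofPowerSeries ℤ ℤ (PowerSeries.pentagonalSeries ℤ)).coeff n = 0 := by
  rw [HahnSeries.ofPowerSeries_apply, HahnSeries.embDomain_of_notMem_range]
  rintro ⟨k, hk⟩
  have hk' : ((k : ℕ) : ℤ) = n := by simpa using hk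
  have := Int.natCast_nonneg k
  omega

theorem FVL_L_Ez (d : ℕ) (hd : 0 < d) : FVL_L 0 (Ez d hd) := by
  have hd' : (0 : ℤ) < d := by exact_mod_cast hd
  constructor
  · intro n hn
    unfold Ez
    rw [VV_coeff]
    split_ifs with h
    · apply FVL_pent_neg
      exact Int.ediv_neg_of_neg_of_pos hn hd'
    · rfl
  · unfold Ez
    rw [VV_coeff, if_pos (dvd_zero _), Int.zero_ediv]
    exact FVL_pent_zero

theorem FVL_pow (h5 : T_HLM) {F : ℂ → ℂ} {f : LaurentSeries ℂ} (hF : HL F f) (n : ℕ) :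
    HL (fun τ => F τ ^ n) (f ^ n) := by
  induction n with
  | zero =>
    have h := HL.const 1
    have e : (HahnSeries.C (1 : ℂ) : LaurentSeries ℂ) = 1 := map_one _
    rw [e] at h
    simpa using h
  | succ n ih =>
    have h := h5 _ _ _ _ ih hF
    simpa [pow_succ] using h

theorem FVL_qq (k : ℤ) : HL (fun τ => qq τ ^ k) (zc (HahnSeries.single k (1 : ℤ))) := by
  intro τ _
  have h : ∀ n : ℤ, n ≠ k → (zc (HahnSeries.single k (1 : ℤ))).coeff n * qq τ ^ n = 0 := by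
    intro n hn
    rw [zc_coeff, HahnSeries.coeff_single_of_ne hn, Int.cast_zero, zero_mul]
  have h2 := hasSum_single (f := fun n : ℤ =>
    (zc (HahnSeries.single k (1 : ℤ))).coeff n * qq τ ^ n) k h
  simpa using h2

theorem m_FVL (h1 : T_EUL) (h2 : T_VEE) (h3 : T_VTR) (h4 : T_QUO) (h5 : T_HLM) (h6 : T_HLV)
    (h7 : T_UNI) : T_FVL := by
  have hE : ∀ (d : ℕ) (hd : 0 < d), HL (fun τ => ee (d * τ)) (zc (Ez d hd)) := by
    intro d hd
    have h := h6 _ _ d hd h1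
    rw [← zc_VV] at h
    exact h
  have hE1 : HL ee (zc (Ez 1 (by norm_num))) := (hE 1 (by norm_num)).congr (by simp)
  have hE2 : HL (fun τ => ee (2 * τ)) (zc (Ez 2 (by norm_num))) :=
    (hE 2 (by norm_num)).congr (by simp)
  have hE5 : HL (fun τ => ee (5 * τ)) (zc (Ez 5 (by norm_num))) :=
    (hE 5 (by norm_num)).congr (by simp)
  have hE10 : HL (fun τ => ee (10 * τ)) (zc (Ez 10 (by norm_num))) :=
    (hE 10 (by norm_num)).congr (by simp)
  have hG0 : FVL_L 0 ((Ez 5 (by norm_num) * Ez 10 (by norm_num)) ^ 2) :=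
    FVL_L_sq (FVL_L_mul (FVL_L_Ez 5 (by norm_num)) (FVL_L_Ez 10 (by norm_num)))
  obtain ⟨gz, hgz, hgl, hg1⟩ := h7 _ 0 hG0.1 hG0.2
  set vz : LaurentSeries ℤ := HahnSeries.single (-1) 1 *
    (Ez 1 (by norm_num) * Ez 2 (by norm_num)) ^ 2 * gz with hvz
  have hV : FVL_L (-1) vz := by
    have a1 := FVL_L_mul (FVL_L_mul (FVL_L_single (-1))
      (FVL_L_sq (FVL_L_mul (FVL_L_Ez 1 (by norm_num)) (FVL_L_Ez 2 (by norm_num)))))
      (show FVL_L 0 gz from ⟨by simpa using hgl, by simpa using hg1⟩)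
    simpa [hvz] using a1
  obtain ⟨vi, hvi, -, -⟩ := h7 vz (-1) hV.1 hV.2
  -- expansion of fv
  have hnum : HL (fun τ => qq τ ^ (-1 : ℤ) * (ee τ * ee (2 * τ)) ^ 2)
      (zc (HahnSeries.single (-1) 1 * (Ez 1 (by norm_num) * Ez 2 (by norm_num)) ^ 2)) := by
    rw [zc_mul, zc_pow, zc_mul]
    exact h5 _ _ _ _ (FVL_qq (-1)) (FVL_pow h5 (h5 _ _ _ _ hE1 hE2) 2)
  have hden : HL (fun τ => (ee (5 * τ) * ee (10 * τ)) ^ 2)
      (zc ((Ez 5 (by norm_num) * Ez 10 (by norm_num)) ^ 2)) := by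
    rw [zc_pow, zc_mul]
    exact FVL_pow h5 (h5 _ _ _ _ hE5 hE10) 2
  have hfv : HL fv (zc vz) := by
    have h := h4 _ _ fv _ _ (zc gz) 0 hnum hden (by rw [← zc_mul, hgz, zc_one])
      (by rw [zc_coeff, hG0.2]; simp) (fun n hn => by rw [zc_coeff, hG0.1 n hn]; simp)
      (fun τ hτ => (h3.1 τ hτ).2.1) (fun τ hτ => by
        rw [(h2 τ hτ).2.1, zpow_neg_one])
    rw [hvz, zc_mul]
    exact h
  have hfi : HL (fun τ => 1 / fv τ) (zc vi) := by
    have h := h4 _ _ (fun τ => 1 / fv τ) _ _ (zc vi) (-1) (HL.const 1) hfv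
      (by rw [← zc_mul, hvi, zc_one])
      (by rw [zc_coeff, hV.2]; simp) (fun n hn => by rw [zc_coeff, hV.1 n hn]; simp)
      (fun τ hτ => (differentiableAt_const 1).div (h3.1 τ hτ).2.1 (h3.1 τ hτ).1)
      (fun τ hτ => div_mul_cancel₀ 1 (h3.1 τ hτ).1)
    have e : (HahnSeries.C (1 : ℂ) : LaurentSeries ℂ) = 1 := map_one _
    rw [e, one_mul] at h
    exact h
  have hfD : HL fD (zc (HahnSeries.single 3 1 * (Ez 1 (by norm_num) * Ez 2 (by norm_num) *
      Ez 5 (by norm_num) * Ez 10 (by norm_num)) ^ 4)) := by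
    have h : HL (fun τ => qq τ ^ (3 : ℤ) * (ee τ * ee (2 * τ) * ee (5 * τ) * ee (10 * τ)) ^ 4)
        (zc (HahnSeries.single 3 1 * (Ez 1 (by norm_num) * Ez 2 (by norm_num) *
          Ez 5 (by norm_num) * Ez 10 (by norm_num)) ^ 4)) := by
      rw [zc_mul, zc_pow, zc_mul, zc_mul, zc_mul]
      exact h5 _ _ _ _ (FVL_qq 3)
        (FVL_pow h5 (h5 _ _ _ _ (h5 _ _ _ _ (h5 _ _ _ _ hE1 hE2) hE5) hE10) 4)
    refine h.congr fun τ hτ => ?_
    rw [(h2 τ hτ).2.2]
    norm_cast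
  refine ⟨vz, vi, _, hfv, hfi, hfD, hvi, ?_, rfl⟩
  rw [hvz]
  have : HahnSeries.single (-1) (1 : ℤ) * (Ez 1 (by norm_num) * Ez 2 (by norm_num)) ^ 2 * gz *
      (Ez 5 (by norm_num) * Ez 10 (by norm_num)) ^ 2 =
      HahnSeries.single (-1) (1 : ℤ) * (Ez 1 (by norm_num) * Ez 2 (by norm_num)) ^ 2 *
      ((Ez 5 (by norm_num) * Ez 10 (by norm_num)) ^ 2 * gz) := by ring
  rw [this, hgz, mul_one]

end Pool.Agent.H32.S36
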