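import Pool.Agent.H32.S36.Targets

/-!
MP_e90fb2_nt, module HLS: functions of `p τ` which are periodic.
-/

set_option autoImplicit false

open Complex Function

namespace Pool.Agent.H32.S36

theorem HLS_zeta (p : ℕ) (hp : 0 < p) (n : ℤ)
    (h : Complex.exp (2 * Real.pi * Complex.I * ((1 / p : ℝ) : ℂ)) ^ n = 1) : (p : ℤ) ∣ n := by
  rw [← Complex.exp_int_mul, Complex.exp_eq_one_iff] at h
  obtain ⟨k, hk⟩ := h
  have hp' : (p : ℂ) ≠ 0 := by exact_mod_cast hp.ne'
  have hpi : (2 * Real.pi * Complex.I : ℂ) ≠ 0 := Complex.two_pi_I_ne_zero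
  refine ⟨k, ?_⟩
  have h1 : ((n : ℂ) - (p : ℂ) * k) * (2 * Real.pi * Complex.I) = 0 := by
    push_cast at hk
    field_simp at hk
    linear_combination (2 * Real.pi * Complex.I) * hk
  rcases mul_eq_zero.1 h1 with h2 | h2
  · have h3 : (n : ℂ) = ((p : ℤ) * k : ℤ) := by
      push_cast
      linear_combination h2
    exact_mod_cast h3
  · exact absurd h2 hpi

theorem m_HLS (h1 : T_HLU) (h2 : T_HLT) : T_HLS := by
  intro F g p hp hper hG
  have hp' : (p : ℂ) ≠ 0 := by exact_mod_cast hp.ne'
  -- the twist of g is g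
  have ht := h2 (fun τ => F (p * τ)) g (1 / p : ℝ) hG
  have ht2 : HL (fun τ => F (p * τ)) (tw ((1 / p : ℝ) : ℂ) g) := by
    refine ht.congr fun τ hτ => ?_
    have e : (p : ℂ) * (τ + ((1 / p : ℝ) : ℂ)) = p * τ + 1 := by
      push_cast
      field_simp
    simp only [e]
    apply hper
    have : ((p : ℂ) * τ).im = p * τ.im := by simp
    rw [this]
    positivity
  have hg := h1 _ _ _ ht2 hG
  have hzero : ∀ n : ℤ, ¬ (p : ℤ) ∣ n → g.coeff n = 0 := by
    intro n hn
    have e := congrArg (fun k : LaurentSeries ℂ => k.coeff n) hg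
    simp only [tw_coeff] at e
    by_contra hne
    apply hn
    apply HLS_zeta p hp
    have : g.coeff n * (Complex.exp (2 * Real.pi * Complex.I * ((1 / p : ℝ) : ℂ)) ^ n - 1) = 0 := by
      rw [mul_sub, e, mul_one, sub_self]
    rcases mul_eq_zero.1 this with h | h
    · exact absurd h hne
    · exact sub_eq_zero.1 h
  -- the series of F
  have hpz : (0 : ℤ) < p := by exact_mod_cast hp
  have hbdd : BddBelow {n : ℤ | g.coeff (p * n) ≠ 0} := by
    by_cases h0 : g = 0
    · refine ⟨0, fun n hn => ?_⟩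
      simp [h0] at hn
    · refine ⟨-|g.order|, fun n hn => ?_⟩
      have h3 : g.order ≤ p * n := HahnSeries.order_le_of_coeff_ne_zero hn
      by_contra hc
      push Not at hc
      have h4 : (p : ℤ) * n ≤ p * (-|g.order| - 1) := by
        apply mul_le_mul_of_nonneg_left _ hpz.le
        omega
      have h5 := neg_abs_le g.order
      have h6 := abs_nonneg g.order
      nlinarith
  refine ⟨⟨fun n => g.coeff (p * n), (hbdd.isWF).isPWO⟩, ?_, fun n => rfl⟩
  intro τ hτ
  have hτp : 0 < (τ / p).im := by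
    have : (τ / p).im = τ.im / p := by simp
    rw [this]
    positivity
  have hs := hG (τ / p) hτp
  have e0 : (p : ℂ) * (τ / p) = τ := by field_simp
  simp only [e0] at hs
  have hinj : Injective (fun m : ℤ => (p : ℤ) * m) := fun a b h =>
    mul_left_cancel₀ hpz.ne' h
  rw [← hinj.hasSum_iff] at hs
  · have hq : qq (τ / p) ^ (p : ℤ) = qq τ := by
      unfold qq
      rw [← Complex.exp_int_mul]
      congr 1
      push_cast
      field_simp
    have e2 : ((fun n : ℤ => g.coeff n * qq (τ / p) ^ n) ∘ fun m : ℤ => (p : ℤ) * m) =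
        fun m : ℤ => g.coeff (p * m) * qq τ ^ m := by
      funext m
      simp only [comp_apply]
      rw [zpow_mul, hq]
    rw [e2] at hs
    exact hs
  · intro n hn
    rw [hzero n, zero_mul]
    rintro ⟨k, hk⟩
    exact hn ⟨k, hk.symm⟩

end Pool.Agent.H32.S36
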