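import Pool.Agent.H32.S36.Targets

/-!
MP_e90fb2_nt, module HLX: existence of the Laurent expansion.
-/

set_option autoImplicit false

open Complex UpperHalfPlane Function
open scoped Manifold

namespace Pool.Agent.H32.S36

theorem HLX_qq_ne (τ : ℂ) : qq τ ≠ 0 := Complex.exp_ne_zero _

theorem HLX_qq_add_one (τ : ℂ) : qq (τ + 1) = qq τ := by
  unfold qq
  rw [mul_add, mul_one, Complex.exp_add, Complex.exp_two_pi_mul_I, mul_one]

theorem HLX_qParam (τ : ℂ) : Periodic.qParam 1 τ = qq τ := by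
  simp [Periodic.qParam, qq]

theorem HLX_coeff (N : ℕ) (a : PowerSeries ℂ) (m : ℕ) :
    (HahnSeries.single (-(N : ℤ)) (1 : ℂ) * HahnSeries.ofPowerSeries ℤ ℂ a : LaurentSeries ℂ).coeff
      ((m : ℤ) - N) = PowerSeries.coeff m a := by
  have h : ((m : ℤ) - N) = (m : ℤ) + (-(N : ℤ)) := by ring
  rw [h, HahnSeries.coeff_single_mul_add, one_mul]
  exact HahnSeries.ofPowerSeries_apply_coeff a m

theorem HLX_coeff_zero (N : ℕ) (a : PowerSeries ℂ) (n : ℤ) (hn : n < -(N : ℤ)) :
    (HahnSeries.single (-(N : ℤ)) (1 : ℂ) * HahnSeries.ofPowerSeries ℤ ℂ a : LaurentSeries ℂ).coeff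
      n = 0 := by
  have h : n = (n + N) + (-(N : ℤ)) := by ring
  rw [h, HahnSeries.coeff_single_mul_add, one_mul, HahnSeries.ofPowerSeries_apply]
  apply HahnSeries.embDomain_of_notMem_range
  rintro ⟨k, hk⟩
  have hk' : ((k : ℕ) : ℤ) = n + N := by simpa using hk
  have := Int.natCast_nonneg k
  omega

theorem m_HLX : T_HLX := by
  intro F hF hper hbd
  obtain ⟨N, C, Y, hb⟩ := hbd
  set f : ℍ → ℂ := fun z => qq (z : ℂ) ^ N * F z with hf
  have hfper : Periodic (f ∘ ofComplex) (1 : ℝ) := by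
    intro w
    by_cases hw : 0 < w.im
    · have hw1 : 0 < (w + (1 : ℝ)).im := by simpa using hw
      simp only [comp_apply, ofComplex_apply_of_im_pos hw1, ofComplex_apply_of_im_pos hw, hf]
      have e : (w + ((1 : ℝ) : ℂ)) = w + 1 := by push_cast; rfl
      simp only [e]
      rw [HLX_qq_add_one, hper w hw]
    · push Not at hw
      have hw1 : (w + (1 : ℝ)).im ≤ 0 := by simpa using hw
      simp only [comp_apply, ofComplex_apply_of_im_nonpos hw1, ofComplex_apply_of_im_nonpos hw]
  have hfhol : MDiff f := by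
    rw [UpperHalfPlane.mdifferentiable_iff]
    intro z hz
    have hz' : 0 < z.im := hz
    have hd : DifferentiableAt ℂ (fun z : ℂ => qq z ^ N * F z) z := by
      refine DifferentiableAt.mul (DifferentiableAt.pow ?_ N) (hF z hz')
      unfold qq
      fun_prop
    refine (hd.congr_of_eventuallyEq ?_).differentiableWithinAt
    have hop : IsOpen {z : ℂ | 0 < z.im} := isOpen_lt continuous_const Complex.continuous_im
    filter_upwards [hop.mem_nhds hz'] with w hw
    simp only [comp_apply, hf, ofComplex_apply_of_im_pos hw, UpperHalfPlane.coe_mk]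
  have hfbdd : IsBoundedAtImInfty f := by
    rw [isBoundedAtImInfty_iff]
    exact ⟨C, Y, fun z hz => hb z z.im_pos hz⟩
  refine ⟨HahnSeries.single (-(N : ℤ)) (1 : ℂ) *
    HahnSeries.ofPowerSeries ℤ ℂ (qExpansion 1 f), ?_⟩
  intro τ hτ
  have hs := hasSum_qExpansion (h := 1) one_pos hfper hfhol hfbdd ⟨τ, hτ⟩
  have hq : qq τ ≠ 0 := HLX_qq_ne τ
  have hs2 := hs.mul_left (qq τ ^ (-(N : ℤ)))
  have hinj : Injective (fun m : ℕ => (m : ℤ) - N) := by
    intro a b h
    simpa using h
  rw [← hinj.hasSum_iff]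
  · have e1 : qq τ ^ (-(N : ℤ)) * f ⟨τ, hτ⟩ = F τ := by
      simp only [hf]
      rw [← mul_assoc, ← zpow_natCast, ← zpow_add₀ hq, neg_add_cancel, zpow_zero, one_mul]
    rw [e1] at hs2
    have e2 : ((fun n : ℤ => (HahnSeries.single (-(N : ℤ)) (1 : ℂ) *
        HahnSeries.ofPowerSeries ℤ ℂ (qExpansion 1 f) : LaurentSeries ℂ).coeff n * qq τ ^ n) ∘
        fun m : ℕ => (m : ℤ) - N) = fun m : ℕ => qq τ ^ (-(N : ℤ)) *
          (PowerSeries.coeff m) (qExpansion 1 f) • Periodic.qParam 1 (τ : ℂ) ^ m := by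
      funext m
      simp only [comp_apply, HLX_coeff, HLX_qParam, smul_eq_mul]
      rw [sub_eq_add_neg, zpow_add₀ hq, zpow_natCast]
      ring
    rw [e2]
    exact hs2
  · intro n hn
    have : n < -(N : ℤ) := by
      by_contra h
      push Not at h
      apply hn
      refine ⟨(n + N).toNat, ?_⟩
      have : ((n + N).toNat : ℤ) = n + N := Int.toNat_of_nonneg (by omega)
      simp only [this]
      ring
    rw [HLX_coeff_zero N _ n this, zero_mul]

end Pool.Agent.H32.S36
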